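import Pool.Agent.H37.CNR.Stmts

/-!
Row FNA of board cnr (MP_b57703_ag).
-/

set_option autoImplicit false

namespace Pool.CND

theorem fna_thm (hREG : S_REG) (hLEX : S_LEX) (hFNL : S_FNL) : S_FNA := by
  intro p k L H _ _ _ _ _ _ ρ t ξ hp hchar hcov hξ
  have h1 : ∃ P : Place k L, ξ ≠ 0 ∧ P.ord ξ < 0 := by
    by_contra hcon
    push Not at hcon
    obtain ⟨c, hc⟩ := hREG k L H ρ t ξ hcov (fun P => by
      by_cases h0 : ξ = 0
      · exact Or.inl h0
      · exact Or.inr (hcon P h0))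
    exact hξ c hc
  obtain ⟨P, h0, hP⟩ := h1
  obtain ⟨u, hu0, hu⟩ := P.ord_surj
  obtain ⟨φ, -, hφ⟩ := hLEX k L P u hu0 hu
  have h2 : (φ ξ) ≠ 0 := (map_ne_zero φ).2 h0
  have h3 : (φ ξ).order < 0 := by rw [hφ ξ h0]; exact hP
  refine (hFNL p k (φ ξ) hp hchar h2 h3).subset ?_
  rintro α ⟨w, hw⟩
  refine ⟨φ w, ?_⟩
  rw [← map_pow, ← map_sub, hw, Algebra.smul_def, map_mul, AlgHom.commutes]
  have h4 : (algebraMap k (LaurentSeries k)) α = HahnSeries.C α := by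
    show (HahnSeries.ofPowerSeries ℤ k) (algebraMap k (PowerSeries k) α) = _
    exact HahnSeries.ofPowerSeries_C α
  rw [h4]
  exact HahnSeries.C_mul_eq_smul

end Pool.CND
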